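import Pool.Agent.H94.BG.H31.PT.M06_2
import Pool.Agent.H94.BG.H31.PT.M10_1
import Pool.Agent.H94.BG.H31.PT.M14_2
import Pool.Agent.H94.BG.M18

/-!
# The core theorem: gluing of four arms for general outer domains
-/

open MeasureTheory ProbabilityTheory unitInterval

namespace Pool.Agent.H57.EX

open Pool.Agent.H89.Perc Pool.Agent.H61.NC Pool.Agent.H29.Sep

/-- One pair of landing points: from `E1` to the final events. -/
theorem core_pair {Z : Dat} {q : I} {s s' n₁ n₂ : ℕ} {γ : ℕ → Vert} {b b' : Vert}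
    {V N N' : Finset Vert} {c₁ c₂ : ℝ} (hs' : 1 ≤ s') (hss : 40 * s' ≤ s) (hsm : 100 * s ≤ Z.m)
    (hb : b ∈ sphere 0 (4 * Z.m)) (hb' : b' ∈ sphere 0 (16 * Z.m)) (hg : ZGood Z.m s γ n₁ b b')
    (hV : ∀ u ∈ ball 0 (20 * Z.m), ∃ v ∈ V, u ∈ ball v s') (hN : IsNet N (4 * Z.m) s')
    (hN' : IsNet N' (16 * Z.m) s') (hc₁ : 0 < c₁) (hc₂ : 0 < c₂)
    (hseal : c₂ ≤ Pr q {ω | ∀ v ∈ V, ω ∉ ArmBox v s' (3 * s')})
    (hcirc : ∀ γ' : ℕ → Vert, c₁ ≤ Pr q (AllCirc γ' n₂ s'))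
    (hgeo : ∀ β ∈ sphere 0 (4 * Z.m), β ∉ ball b (30 * s) →
      ∀ β' ∈ sphere 0 (16 * Z.m), β' ∉ ball b' (30 * s) → ∃ γ' : ℕ → Vert,
        ZGood Z.m s' γ' n₂ β β' ∧
        ∀ w ∈ zone γ' n₂ s', ∀ z ∈ zone γ n₁ s, w ∉ ball z (8 * s')) :
    ∃ F' : Finset (ℕ → Vert), F'.card ≤ N.card * N'.card ∧
      (∀ γ' ∈ F', ∃ β ∈ sphere 0 (4 * Z.m), ∃ β' ∈ sphere 0 (16 * Z.m),
        ZGood Z.m s' γ' n₂ β β') ∧
      PrE q Z.E (E1 Z s b b' (GG Z s γ n₁)) ≤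
        PrE q Z.E (E1 Z s b b' (GG Z s γ n₁) \ NB Z (38 * s') (GG Z s γ n₁)) +
          c₂⁻¹ * c₁⁻¹ * (N.card * N'.card * ∑ γ' ∈ F', PrE q Z.E (Fin Z s' γ' n₂)) := by
  classical
  set G := GG Z s γ n₁ with hG
  have hGW : G ⊆ Z.W := by
    intro v hv
    rcases hv with (hv | hv) | hv
    · exact Z.hBW (ball_mono (by omega) hv)
    · exact Z.hDW hv
    · exact Z.hBW (mem_ball_zero.2 (by have := hg.bdd v hv; push_cast; linarith))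
  -- choice of the fine chains
  have hch : ∀ p : Vert × Vert, ∃ γ' : ℕ → Vert,
      (p.1 ∈ sphere 0 (4 * Z.m) ∧ p.1 ∉ ball b (30 * s) ∧ p.2 ∈ sphere 0 (16 * Z.m) ∧
        p.2 ∉ ball b' (30 * s)) → ZGood Z.m s' γ' n₂ p.1 p.2 ∧
        ∀ w ∈ zone γ' n₂ s', ∀ z ∈ zone γ n₁ s, w ∉ ball z (8 * s') := by
    intro p
    by_cases h : p.1 ∈ sphere 0 (4 * Z.m) ∧ p.1 ∉ ball b (30 * s) ∧ p.2 ∈ sphere 0 (16 * Z.m) ∧
        p.2 ∉ ball b' (30 * s)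
    · obtain ⟨γ', h'⟩ := hgeo p.1 h.1 h.2.1 p.2 h.2.2.1 h.2.2.2
      exact ⟨γ', fun _ => h'⟩
    · exact ⟨fun _ => 0, fun h' => absurd h' h⟩
  choose γ' hγ' using hch
  set K : Finset (Vert × Vert) := (N ×ˢ N').filter
    (fun p => p.1 ∉ ball b (30 * s) ∧ p.2 ∉ ball b' (30 * s)) with hK
  have hKgood : ∀ p ∈ K, p.1 ∈ sphere 0 (4 * Z.m) ∧ p.1 ∉ ball b (30 * s) ∧
      p.2 ∈ sphere 0 (16 * Z.m) ∧ p.2 ∉ ball b' (30 * s) := by
    intro p hp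
    rw [hK, Finset.mem_filter, Finset.mem_product] at hp
    exact ⟨hN.sub _ hp.1.1, hp.2.1, hN'.sub _ hp.1.2, hp.2.2⟩
  have hKcard : K.card ≤ N.card * N'.card := by
    rw [← Finset.card_product]
    exact Finset.card_filter_le _ _
  refine ⟨K.image γ', le_trans Finset.card_image_le hKcard, ?_, ?_⟩
  · intro g hg'
    obtain ⟨p, hp, rfl⟩ := Finset.mem_image.1 hg'
    have h := hKgood p hp
    exact ⟨p.1, h.1, p.2, h.2.2.1, (hγ' p h).1⟩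
  -- first splitting
  have h0 : PrE q Z.E (E1 Z s b b' G) ≤
      PrE q Z.E (E1 Z s b b' G \ NB Z (38 * s') G) +
        PrE q Z.E (E1 Z s b b' G ∩ NB Z (38 * s') G) := by
    refine le_trans (PrE_mono ?_) PrE_union_le
    intro ω hω
    by_cases h : ω ∈ NB Z (38 * s') G
    · exact Or.inr ⟨hω, h⟩
    · exact Or.inl ⟨hω, h⟩
  -- sealing
  have h1 : c₂ * PrE q Z.E (E1 Z s b b' G ∩ NB Z (38 * s') G) ≤
      PrE q Z.E (E1 Z s b b' G ∩ NB Z (38 * s') G ∩ Seal Z s' V G) := by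
    have := stage2a (Z := Z) (s := s') (V := V) hGW
      (fun S1 S2 S3 => P1 Z s b b' S1 S2 S3 ∧ NBp Z (38 * s') S1 S2 S3) hc₂.le hseal
    exact this
  -- landing
  have h2 : PrE q Z.E (E1 Z s b b' G ∩ NB Z (38 * s') G ∩ Seal Z s' V G) ≤
      ∑ p ∈ K, PrE q Z.E (E2 Z s' (γ' p) n₂ p.1 p.2) := by
    refine le_trans (PrE_mono ?_) (PrE_biUnion_le K _)
    intro ω hω
    obtain ⟨β, hβ, β', hβ', h3, h4, h5⟩ := det2 (Z := Z) (s := s) (s' := s') (γ := γ) (n := n₁)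
      (b := b) (b' := b') (V := V) (ω := ω)
      ⟨hs', hss, hsm, hb, hb', hg, hV, hω.1.1, hω.1.2, hω.2⟩ hN hN'
    have hp : (β, β') ∈ K := by
      rw [hK, Finset.mem_filter, Finset.mem_product]
      exact ⟨⟨hβ, hβ'⟩, h3, h4⟩
    have h := hγ' (β, β') (hKgood _ hp)
    simp only [Set.mem_iUnion]
    exact ⟨(β, β'), hp, h5 _ _ h.1 h.2⟩
  -- second gluing
  have h3 : ∀ p ∈ K, PrE q Z.E (E2 Z s' (γ' p) n₂ p.1 p.2) ≤
      c₁⁻¹ * ∑ g ∈ K.image γ', PrE q Z.E (Fin Z s' g n₂) := by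
    intro p hp
    have h := hKgood p hp
    have h' := stage2b (Z := Z) (s := s') (n := n₂) (γ := γ' p) (β := p.1) (β' := p.2) hs'
      (by omega) h.1 h.2.2.1 (hγ' p h).1 hc₁.le (hcirc (γ' p))
    have h'' : PrE q Z.E (Fin Z s' (γ' p) n₂) ≤
        ∑ g ∈ K.image γ', PrE q Z.E (Fin Z s' g n₂) :=
      Finset.single_le_sum (f := fun g => PrE q Z.E (Fin Z s' g n₂))
        (fun g _ => PrE_nonneg) (Finset.mem_image_of_mem γ' hp)
    rw [inv_mul_eq_div, le_div_iff₀ hc₁]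
    linarith
  have h4 : ∑ p ∈ K, PrE q Z.E (E2 Z s' (γ' p) n₂ p.1 p.2) ≤
      N.card * N'.card * (c₁⁻¹ * ∑ g ∈ K.image γ', PrE q Z.E (Fin Z s' g n₂)) := by
    refine le_trans (Finset.sum_le_sum h3) ?_
    rw [Finset.sum_const, nsmul_eq_mul]
    refine mul_le_mul_of_nonneg_right ?_ ?_
    · exact_mod_cast hKcard
    · exact mul_nonneg (inv_nonneg.2 hc₁.le) (Finset.sum_nonneg fun g _ => PrE_nonneg)
  have h5 : PrE q Z.E (E1 Z s b b' G ∩ NB Z (38 * s') G) ≤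
      c₂⁻¹ * ∑ p ∈ K, PrE q Z.E (E2 Z s' (γ' p) n₂ p.1 p.2) := by
    rw [inv_mul_eq_div, le_div_iff₀ hc₂]
    linarith
  have h6 : c₂⁻¹ * ∑ p ∈ K, PrE q Z.E (E2 Z s' (γ' p) n₂ p.1 p.2) ≤
      c₂⁻¹ * (N.card * N'.card * (c₁⁻¹ * ∑ g ∈ K.image γ', PrE q Z.E (Fin Z s' g n₂))) :=
    mul_le_mul_of_nonneg_left h4 (inv_nonneg.2 hc₂.le)
  calc PrE q Z.E (E1 Z s b b' G)
      ≤ PrE q Z.E (E1 Z s b b' G \ NB Z (38 * s') G) +
        c₂⁻¹ * (N.card * N'.card * (c₁⁻¹ * ∑ g ∈ K.image γ', PrE q Z.E (Fin Z s' g n₂))) := by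
        linarith
    _ = _ := by ring

theorem div_facts {m k : ℕ} (hk : 1 ≤ k) (hm : k ≤ m) : 1 ≤ m / k ∧ m ≤ 2 * k * (m / k) := by
  have h1 : 1 ≤ m / k := (Nat.le_div_iff_mul_le (by omega)).2 (by omega)
  refine ⟨h1, ?_⟩
  have h2 := Nat.div_add_mod m k
  have h3 := Nat.mod_lt m (show 0 < k by omega)
  have h4 : k * 1 ≤ k * (m / k) := Nat.mul_le_mul_left k h1
  nlinarith

theorem mul_div_le' {m s k a : ℕ} (h : m ≤ 2 * k * s) (_hs : 1 ≤ s) :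
    a * m / s ≤ 2 * a * k := by
  apply Nat.div_le_of_le_mul
  calc a * m ≤ a * (2 * k * s) := Nat.mul_le_mul_left a h
    _ = s * (2 * a * k) := by ring

/-- The core theorem. -/
theorem core (hgeo : Geo) : ∃ k₀ : ℕ, 100 ≤ k₀ ∧ ∀ k : ℕ, k₀ ≤ k → ∀ c : ℝ, 0 < c →
    ∃ (A : ℝ) (n₁ k₁ : ℕ), 0 < A ∧ 80 * k ≤ k₁ ∧ ∀ k' : ℕ, k₁ ≤ k' →
      ∃ (B : ℝ) (n₂ m₀ : ℕ), 0 < B ∧ 2 * k' ≤ m₀ ∧
        ∀ (Z : Dat) (q : I), m₀ ≤ Z.m → RSWreg c Z.m q →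
          ∃ (F : Finset (Vert × Vert)) (γ : Vert × Vert → ℕ → Vert) (F' : Finset (ℕ → Vert)),
            (F.card : ℝ) ≤ A ∧ (F'.card : ℝ) ≤ B ∧
            (∀ p ∈ F, ZGood Z.m (Z.m / k) (γ p) n₁ p.1 p.2) ∧
            (∀ γ' ∈ F', ∃ β ∈ sphere 0 (4 * Z.m), ∃ β' ∈ sphere 0 (16 * Z.m),
              ZGood Z.m (Z.m / k') γ' n₂ β β') ∧
            PrE q Z.E (Four Z.x Z.y (4 * Z.m) ∩ Out Z.D Z.L Z.T (16 * Z.m)) ≤
              PrE q Z.E (Four Z.x Z.y (4 * Z.m) ∩ Out Z.D Z.L Z.T (16 * Z.m) ∩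
                (NearIn Z (38 * (Z.m / k)) ∪ NearOut Z (38 * (Z.m / k)))) +
              A * ∑ p ∈ F, PrE q Z.E (E1 Z (Z.m / k) p.1 p.2 (GG Z (Z.m / k) (γ p) n₁) \
                NB Z (38 * (Z.m / k')) (GG Z (Z.m / k) (γ p) n₁)) +
              B * ∑ γ' ∈ F', PrE q Z.E (Fin Z (Z.m / k') γ' n₂) := by
  classical
  obtain ⟨kg, hkg1, hgeo⟩ := hgeo
  refine ⟨max kg 100, le_max_right _ _, fun k hk c hc => ?_⟩
  have hk1 : kg ≤ k := le_trans (le_max_left _ _) hk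
  have hk2 : 100 ≤ k := le_trans (le_max_right _ _) hk
  obtain ⟨n₁, kg', hgeo⟩ := hgeo k hk1
  obtain ⟨c₁, hc₁, hc₁1, hcirc⟩ := allCirc_lower c hc
  obtain ⟨c₂, hc₂, hc₂1, hseal⟩ := seal_lower c hc
  set a₁ : ℝ := (c₁ ^ (n₁ + 1))⁻¹ with ha₁
  have ha₁0 : 0 < a₁ := by positivity
  set M : ℕ := (8 * (16 * k + 2)) * (8 * (64 * k + 2)) with hM
  refine ⟨a₁ + M, n₁, max kg' (80 * k), by positivity, le_max_right _ _, fun k' hk' => ?_⟩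
  have hk'1 : kg' ≤ k' := le_trans (le_max_left _ _) hk'
  have hk'2 : 80 * k ≤ k' := le_trans (le_max_right _ _) hk'
  obtain ⟨n₂, mg, hgeo⟩ := hgeo k' hk'1
  set M' : ℕ := (8 * (16 * k' + 2)) * (8 * (64 * k' + 2)) with hM'
  set v : ℕ := (80 * k' + 2) ^ 2 with hv
  set b₁ : ℝ := (c₂ ^ v)⁻¹ * (c₁ ^ (n₂ + 1))⁻¹ with hb₁
  have hb₁0 : 0 < b₁ := by positivity
  refine ⟨a₁ * M * b₁ * M' + M * M' + 1, n₂, max mg (2 * k'), by positivity, le_max_right _ _,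
    fun Z q hm hq => ?_⟩
  have hm1 : mg ≤ Z.m := le_trans (le_max_left _ _) hm
  have hm2 : 2 * k' ≤ Z.m := le_trans (le_max_right _ _) hm
  set m := Z.m with hmdef
  set s := m / k with hsdef
  set s' := m / k' with hs'def
  obtain ⟨hs1, hs2⟩ := div_facts (m := m) (k := k) (by omega) (by omega)
  obtain ⟨hs'1, hs'2⟩ := div_facts (m := m) (k := k') (by omega) (by omega)
  rw [← hsdef] at hs1 hs2
  rw [← hs'def] at hs'1 hs'2
  have hsm : 100 * s ≤ m := by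
    calc 100 * s ≤ k * s := Nat.mul_le_mul_right s hk2
      _ ≤ m := Nat.mul_div_le m k
  have hss : 40 * s' ≤ s := by
    have h1 : k' * s' ≤ m := Nat.mul_div_le m k'
    have h2 : 80 * k * s' ≤ k' * s' := Nat.mul_le_mul_right s' hk'2
    rw [hsdef, Nat.le_div_iff_mul_le (by omega)]
    nlinarith
  obtain ⟨N, hN, hNc⟩ := exists_net (4 * m) s hs1
  obtain ⟨N', hN', hN'c⟩ := exists_net (16 * m) s hs1
  obtain ⟨N2, hN2, hN2c⟩ := exists_net (4 * m) s' hs'1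
  obtain ⟨N2', hN2', hN2'c⟩ := exists_net (16 * m) s' hs'1
  obtain ⟨V, hV, hVc⟩ := exists_grid (20 * m) s' hs'1
  have hNc' : N.card ≤ 8 * (16 * k + 2) := by
    have := mul_div_le' (a := 8) hs2 hs1
    rw [show 2 * (4 * m) = 8 * m by ring] at hNc
    omega
  have hN'c' : N'.card ≤ 8 * (64 * k + 2) := by
    have := mul_div_le' (a := 32) hs2 hs1
    rw [show 2 * (16 * m) = 32 * m by ring] at hN'c
    omega
  have hN2c' : N2.card ≤ 8 * (16 * k' + 2) := by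
    have := mul_div_le' (a := 8) hs'2 hs'1
    rw [show 2 * (4 * m) = 8 * m by ring] at hN2c
    omega
  have hN2'c' : N2'.card ≤ 8 * (64 * k' + 2) := by
    have := mul_div_le' (a := 32) hs'2 hs'1
    rw [show 2 * (16 * m) = 32 * m by ring] at hN2'c
    omega
  have hVc' : V.card ≤ v := by
    have := mul_div_le' (a := 40) hs'2 hs'1
    rw [show 2 * (20 * m) = 40 * m by ring] at hVc
    refine le_trans hVc ?_
    rw [hv]
    exact Nat.pow_le_pow_left (by omega) 2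
  have hcardF : (N ×ˢ N').card ≤ M := by
    rw [Finset.card_product]
    exact Nat.mul_le_mul hNc' hN'c'
  have hcard2 : N2.card * N2'.card ≤ M' := Nat.mul_le_mul hN2c' hN2'c'
  have hm1' : 1 ≤ m := by omega
  have hsm1 : s ≤ m := by omega
  have hs'm1 : s' ≤ m := by omega
  have hsealV : c₂ ^ v ≤ Pr q {ω | ∀ v ∈ V, ω ∉ ArmBox v s' (3 * s')} :=
    le_trans (pow_le_pow_of_le_one hc₂.le hc₂1 hVc') (hseal m q hm1' hq V s' hs'1 hs'm1)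
  -- the coarse chains
  have hch : ∀ p : Vert × Vert, ∃ γ : ℕ → Vert,
      (p.1 ∈ sphere 0 (4 * m) ∧ p.2 ∈ sphere 0 (16 * m)) →
        ZGood m s γ n₁ p.1 p.2 ∧
        ∀ β ∈ sphere 0 (4 * m), β ∉ ball p.1 (30 * s) →
        ∀ β' ∈ sphere 0 (16 * m), β' ∉ ball p.2 (30 * s) → ∃ γ' : ℕ → Vert,
          ZGood m s' γ' n₂ β β' ∧
          ∀ w ∈ zone γ' n₂ s', ∀ z ∈ zone γ n₁ s, w ∉ ball z (8 * s') := by
    intro p
    by_cases h : p.1 ∈ sphere 0 (4 * m) ∧ p.2 ∈ sphere 0 (16 * m)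
    · obtain ⟨γ, h'⟩ := hgeo m hm1 p.1 h.1 p.2 h.2
      exact ⟨γ, fun _ => h'⟩
    · exact ⟨fun _ => 0, fun h' => absurd h' h⟩
  choose γ hγ using hch
  have hFgood : ∀ p ∈ N ×ˢ N', p.1 ∈ sphere 0 (4 * m) ∧ p.2 ∈ sphere 0 (16 * m) := by
    intro p hp
    rw [Finset.mem_product] at hp
    exact ⟨hN.sub _ hp.1, hN'.sub _ hp.2⟩
  -- one pair
  have hpair : ∀ p ∈ N ×ˢ N', ∃ F' : Finset (ℕ → Vert), F'.card ≤ N2.card * N2'.card ∧
      (∀ γ' ∈ F', ∃ β ∈ sphere 0 (4 * m), ∃ β' ∈ sphere 0 (16 * m),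
        ZGood m s' γ' n₂ β β') ∧
      PrE q Z.E (E1 Z s p.1 p.2 (GG Z s (γ p) n₁)) ≤
        PrE q Z.E (E1 Z s p.1 p.2 (GG Z s (γ p) n₁) \ NB Z (38 * s') (GG Z s (γ p) n₁)) +
          (c₂ ^ v)⁻¹ * (c₁ ^ (n₂ + 1))⁻¹ *
            (N2.card * N2'.card * ∑ γ' ∈ F', PrE q Z.E (Fin Z s' γ' n₂)) := by
    intro p hp
    have h := hFgood p hp
    exact core_pair hs'1 hss hsm h.1 h.2 (hγ p h).1 hV hN2 hN2' (by positivity) (by positivity)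
      hsealV (fun γ' => hcirc m q hm1' hq γ' n₂ s' hs'1 hs'm1) (hγ p h).2
  choose! F' hF'1 hF'2 hF'3 using hpair
  refine ⟨N ×ˢ N', γ, (N ×ˢ N').biUnion F', ?_, ?_, fun p hp => (hγ p (hFgood p hp)).1, ?_, ?_⟩
  · have : ((N ×ˢ N').card : ℝ) ≤ M := by exact_mod_cast hcardF
    linarith
  · have h1 : ((N ×ˢ N').biUnion F').card ≤ M * M' := by
      refine le_trans Finset.card_biUnion_le ?_
      refine le_trans (Finset.sum_le_card_nsmul _ _ M' fun p hp => le_trans (hF'1 p hp) hcard2) ?_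
      rw [smul_eq_mul]
      exact Nat.mul_le_mul_right M' hcardF
    have h2 : ((((N ×ˢ N').biUnion F').card : ℕ) : ℝ) ≤ M * M' := by exact_mod_cast h1
    have h3 : 0 ≤ a₁ * M * b₁ * M' := by positivity
    linarith
  · intro g hg
    obtain ⟨p, hp, hg⟩ := Finset.mem_biUnion.1 hg
    exact hF'2 p hp g hg
  -- the main inequality
  set S : ℝ := ∑ γ' ∈ (N ×ˢ N').biUnion F', PrE q Z.E (Fin Z s' γ' n₂) with hS
  have hS0 : 0 ≤ S := Finset.sum_nonneg fun _ _ => PrE_nonneg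
  have hsub : ∀ p ∈ N ×ˢ N', ∑ γ' ∈ F' p, PrE q Z.E (Fin Z s' γ' n₂) ≤ S := by
    intro p hp
    exact Finset.sum_le_sum_of_subset_of_nonneg (Finset.subset_biUnion_of_mem F' hp)
      fun _ _ _ => PrE_nonneg
  have hE0 : ∀ p ∈ N ×ˢ N', PrE q Z.E (E0 Z s p.1 p.2) ≤
      a₁ * PrE q Z.E (E1 Z s p.1 p.2 (GG Z s (γ p) n₁) \ NB Z (38 * s') (GG Z s (γ p) n₁)) +
        a₁ * b₁ * M' * S := by
    intro p hp
    have h := hFgood p hp
    have h1 := stage1 (Z := Z) (s := s) (n := n₁) (γ := γ p) hs1 hsm h.1 h.2 (hγ p h).1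
      (q := q) (c := c₁ ^ (n₁ + 1)) (by positivity) (hcirc m q hm1' hq (γ p) n₁ s hs1 hsm1)
    have h2 : PrE q Z.E (E0 Z s p.1 p.2) ≤
        a₁ * PrE q Z.E (E1 Z s p.1 p.2 (GG Z s (γ p) n₁)) := by
      rw [ha₁, inv_mul_eq_div, le_div_iff₀ (by positivity)]
      linarith
    have h3 : b₁ * (N2.card * N2'.card * ∑ γ' ∈ F' p, PrE q Z.E (Fin Z s' γ' n₂)) ≤
        b₁ * (M' * S) := by
      refine mul_le_mul_of_nonneg_left ?_ hb₁0.le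
      refine mul_le_mul (by exact_mod_cast hcard2) (hsub p hp)
        (Finset.sum_nonneg fun _ _ => PrE_nonneg) (by positivity)
    have h4 := hF'3 p hp
    rw [← hb₁] at h4
    calc PrE q Z.E (E0 Z s p.1 p.2) ≤ a₁ * PrE q Z.E (E1 Z s p.1 p.2 (GG Z s (γ p) n₁)) := h2
      _ ≤ a₁ * (PrE q Z.E (E1 Z s p.1 p.2 (GG Z s (γ p) n₁) \
            NB Z (38 * s') (GG Z s (γ p) n₁)) + b₁ * (M' * S)) :=
          mul_le_mul_of_nonneg_left (by linarith) ha₁0.le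
      _ = _ := by ring
  have hD := det1 (Z := Z) (s := s) hN hN'
  have h1 : PrE q Z.E (Four Z.x Z.y (4 * m) ∩ Out Z.D Z.L Z.T (16 * m)) ≤
      PrE q Z.E (Four Z.x Z.y (4 * m) ∩ Out Z.D Z.L Z.T (16 * m) ∩
        (NearIn Z (38 * s) ∪ NearOut Z (38 * s))) +
        ∑ p ∈ N ×ˢ N', PrE q Z.E (E0 Z s p.1 p.2) := by
    refine le_trans (PrE_mono hD) (le_trans PrE_union_le ?_)
    refine add_le_add le_rfl ?_
    have h2 : (⋃ b ∈ N, ⋃ b' ∈ N', E0 Z s b b') ⊆ ⋃ p ∈ N ×ˢ N', E0 Z s p.1 p.2 := by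
      intro ω hω
      simp only [Set.mem_iUnion] at hω ⊢
      obtain ⟨b, hb, b', hb', h⟩ := hω
      exact ⟨(b, b'), Finset.mem_product.2 ⟨hb, hb'⟩, h⟩
    exact le_trans (PrE_mono h2) (PrE_biUnion_le _ _)
  have h2 : ∑ p ∈ N ×ˢ N', PrE q Z.E (E0 Z s p.1 p.2) ≤
      a₁ * ∑ p ∈ N ×ˢ N', PrE q Z.E (E1 Z s p.1 p.2 (GG Z s (γ p) n₁) \
        NB Z (38 * s') (GG Z s (γ p) n₁)) + M * (a₁ * b₁ * M' * S) := by
    refine le_trans (Finset.sum_le_sum hE0) ?_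
    rw [Finset.sum_add_distrib, Finset.sum_const, nsmul_eq_mul, ← Finset.mul_sum]
    refine add_le_add le_rfl (mul_le_mul_of_nonneg_right (by exact_mod_cast hcardF) ?_)
    positivity
  set S1 : ℝ := ∑ p ∈ N ×ˢ N', PrE q Z.E (E1 Z s p.1 p.2 (GG Z s (γ p) n₁) \
        NB Z (38 * s') (GG Z s (γ p) n₁)) with hS1
  have hS10 : 0 ≤ S1 := Finset.sum_nonneg fun _ _ => PrE_nonneg
  have h3 : (0 : ℝ) ≤ M * S1 := by positivity
  have h4 : (0 : ℝ) ≤ (M * M' + 1) * S := by positivity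
  nlinarith [h1, h2, h3, h4]

end Pool.Agent.H57.EX
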